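import Mathlib

/-! Interpolation by linear forms at affinely independent points. -/

set_option autoImplicit false

namespace Pool.Agent.P8H6.Lin

open Finset

/-- rational interpolation -/
theorem interpQ {T r : ℕ} (m : Fin T → Fin r → ℤ) (I : Finset (Fin T))
    (hI : AffineIndependent ℚ (fun i : {x // x ∈ I} => (fun l => (m i l : ℚ)))) (t : Fin T → ℚ) :
    ∃ (w : Fin r → ℚ) (c : ℚ), ∀ i ∈ I, ∑ l, (m i l : ℚ) * w l + c = t i := by
  classical
  rcases I.eq_empty_or_nonempty with rfl | ⟨i₁, hi₁⟩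
  · exact ⟨0, 0, by simp⟩
  rw [affineIndependent_iff_linearIndependent_vsub ℚ _ (⟨i₁, hi₁⟩ : {x // x ∈ I})] at hI
  set v : {x : {x // x ∈ I} // x ≠ ⟨i₁, hi₁⟩} → (Fin r → ℚ) :=
    fun i => (fun l => (m (i : {x // x ∈ I}) l : ℚ)) -ᵥ (fun l => (m i₁ l : ℚ)) with hv
  have hv' : LinearIndependent ℚ v := hI
  let b := Module.Basis.span hv'
  let f0 : Submodule.span ℚ (Set.range v) →ₗ[ℚ] ℚ :=
    b.constr ℚ (fun i => t (i : {x // x ∈ I}) - t i₁)
  obtain ⟨g, hg⟩ := f0.exists_extend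
  have hgv : ∀ i, g (v i) = t (i : {x // x ∈ I}) - t i₁ := by
    intro i
    have h1 : g (v i) = f0 (b i) := by
      have h2 : ((b i : Submodule.span ℚ (Set.range v)) : Fin r → ℚ) = v i :=
        congrArg Subtype.val (Module.Basis.span_apply hv' i)
      rw [← hg, LinearMap.comp_apply, Submodule.subtype_apply, h2]
    rw [h1]
    exact b.constr_basis ℚ _ i
  have hgsum : ∀ x : Fin r → ℚ, g x = ∑ l, x l * g (Pi.single l 1) := by
    intro x
    rw [LinearMap.pi_apply_eq_sum_univ g x]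
    apply sum_congr rfl
    intro l _
    rw [smul_eq_mul]
    congr 2
    ext j
    rw [Pi.single_apply]
    by_cases h : l = j
    · subst h; simp
    · simp [h, Ne.symm h]
  refine ⟨fun l => g (Pi.single l 1), t i₁ - g (fun l => (m i₁ l : ℚ)), fun i hi => ?_⟩
  rw [← hgsum (fun l => (m i l : ℚ))]
  by_cases h : i = i₁
  · subst h; ring
  · have h1 := hgv ⟨⟨i, hi⟩, fun he => h (Subtype.ext_iff.1 he)⟩
    have h2 : v ⟨⟨i, hi⟩, fun he => h (Subtype.ext_iff.1 he)⟩ =
        (fun l => (m i l : ℚ)) - (fun l => (m i₁ l : ℚ)) := rfl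
    rw [h2, map_sub] at h1
    simp only at h1
    linarith

/-- integral interpolation of a multiple -/
theorem interpZ {T r : ℕ} (m : Fin T → Fin r → ℤ) (I : Finset (Fin T))
    (hI : AffineIndependent ℚ (fun i : {x // x ∈ I} => (fun l => (m i l : ℚ)))) (t : Fin T → ℤ) :
    ∃ (N : ℕ) (w : Fin r → ℤ) (c : ℤ), 1 ≤ N ∧ ∀ i ∈ I, ∑ l, m i l * w l + c = N * t i := by
  classical
  obtain ⟨w, c, h⟩ := interpQ m I hI (fun i => (t i : ℚ))
  set N : ℕ := (∏ l, (w l).den) * c.den with hN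
  have hN1 : 1 ≤ N := by
    rw [hN]
    exact Nat.mul_pos (prod_pos fun l _ => (w l).den_pos) c.den_pos
  have hw : ∀ l, ∃ z : ℤ, (z : ℚ) = N * w l := by
    intro l
    have h1 : (w l).den ∣ N := by
      rw [hN]
      exact (dvd_prod_of_mem (fun l => (w l).den) (mem_univ l)).mul_right _
    obtain ⟨s, hs⟩ := h1
    refine ⟨(w l).num * s, ?_⟩
    rw [hs]
    push_cast
    have h2 : (w l).den * w l = (w l).num := Rat.den_mul_eq_num (w l)
    calc ((w l).num : ℚ) * s = ((w l).den * w l) * s := by rw [h2]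
      _ = _ := by ring
  have hc : ∃ z : ℤ, (z : ℚ) = N * c := by
    refine ⟨c.num * ((∏ l, (w l).den : ℕ) : ℤ), ?_⟩
    rw [hN]
    push_cast
    have h2 : c.den * c = c.num := Rat.den_mul_eq_num c
    calc (c.num : ℚ) * ∏ l, ((w l).den : ℚ) = (c.den * c) * ∏ l, ((w l).den : ℚ) := by rw [h2]
      _ = _ := by ring
  choose w' hw' using hw
  obtain ⟨c', hc'⟩ := hc
  refine ⟨N, w', c', hN1, fun i hi => ?_⟩
  have h1 : ((∑ l, m i l * w' l + c' : ℤ) : ℚ) = ((N * t i : ℤ) : ℚ) := by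
    push_cast
    have h2 : ∑ l, (m i l : ℚ) * (w' l : ℚ) = N * ∑ l, (m i l : ℚ) * w l := by
      rw [mul_sum]
      apply sum_congr rfl
      intro l _
      rw [hw' l]; ring
    rw [h2, hc', ← h i hi]
    ring
  exact_mod_cast h1

end Pool.Agent.P8H6.Lin
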