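import Mathlib
import Pool.Agent.P8H6.Blk.Almost
import Pool.Agent.P8H6.Lin.Interp
import Pool.Agent.Y877.Varn

/-! Almost all values of affine forms in general position contain `k + 1` consecutive primes. -/

set_option autoImplicit false

namespace Pool.Agent.P8H6.Lin

open Finset Pool.Agent.P8H6.Blk

/-- the values of the affine forms -/
def val {T r : ℕ} (m : Fin T → Fin r → ℤ) (e : Fin T → ℤ) (D : Fin r → ℤ) (i : Fin T) : ℤ :=
  ∑ l, m i l * D l + e i

theorem val_add {T r : ℕ} (m : Fin T → Fin r → ℤ) (e : Fin T → ℤ) (D w : Fin r → ℤ) (d : ℤ)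
    (i : Fin T) : val m e (fun l => D l + w l * d) i = val m e D i + d * ∑ l, m i l * w l := by
  unfold val
  rw [mul_sum]
  have h1 : ∑ l, m i l * (D l + w l * d) = ∑ l, m i l * D l + ∑ l, d * (m i l * w l) := by
    rw [← sum_add_distrib]
    apply sum_congr rfl
    intro l _
    ring
  rw [h1]
  ring

/-- a translation by a multiple of the modulus -/
theorem Cons_shift (q : ℕ) (r : ℤ) (F : Finset ℤ) (s : ℤ) (hs : (q : ℤ) ∣ s) (h : Cons q r F) :
    Cons q r (F.image (fun x => x - s)) := by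
  classical
  unfold Cons at h ⊢
  obtain ⟨S, hS⟩ : ∃ S : Set ℕ, S = {n : ℕ | (n : ℤ) ≡ r [ZMOD q] ∧
    (∀ f ∈ F, ∃ p : ℕ, p.Prime ∧ (p : ℤ) = n + f) ∧
    ∀ p : ℕ, p.Prime → (∃ f ∈ F, (n : ℤ) + f ≤ p) → (∃ f ∈ F, (p : ℤ) ≤ n + f) →
      (p : ℤ) - n ∈ F} := ⟨_, rfl⟩
  rw [← hS] at h
  have h1 : (S \ {n : ℕ | n < s.natAbs}).Infinite :=
    h.sdiff (Set.finite_lt_nat s.natAbs)
  have hinj : Set.InjOn (fun n : ℕ => ((n : ℤ) + s).toNat) (S \ {n : ℕ | n < s.natAbs}) := by
    intro x hx y hy he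
    have hx2 : ¬ x < s.natAbs := hx.2
    have hy2 : ¬ y < s.natAbs := hy.2
    simp only at he
    omega
  apply (h1.image hinj).mono
  rintro _ ⟨n, ⟨hn1, hn2⟩, rfl⟩
  have hn2' : ¬ n < s.natAbs := hn2
  have hz : ((((n : ℤ) + s).toNat : ℕ) : ℤ) = n + s := Int.toNat_of_nonneg (by omega)
  rw [hS] at hn1
  obtain ⟨a1, a2, a3⟩ := hn1
  refine ⟨?_, ?_, ?_⟩
  · simp only
    rw [hz]
    obtain ⟨c, hc⟩ := hs
    have h2 : (n : ℤ) + s ≡ n [ZMOD q] := by
      rw [hc]
      exact Int.modEq_iff_dvd.2 ⟨-c, by ring⟩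
    exact h2.trans a1
  · intro f hf
    obtain ⟨g, hg, rfl⟩ := mem_image.1 hf
    obtain ⟨p, hp, hpe⟩ := a2 g hg
    refine ⟨p, hp, ?_⟩
    simp only
    rw [hz, hpe]
    ring
  · rintro p hp ⟨f, hf, hfp⟩ ⟨f', hf', hfp'⟩
    obtain ⟨g, hg, rfl⟩ := mem_image.1 hf
    obtain ⟨g', hg', rfl⟩ := mem_image.1 hf'
    simp only at hfp hfp' ⊢
    rw [hz] at hfp hfp' ⊢
    have h2 := a3 p hp ⟨g, hg, by linarith⟩ ⟨g', hg', by linarith⟩
    exact mem_image.2 ⟨_, h2, by ring⟩

open Classical in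
/-- the exceptional parameters of a box -/
noncomputable def ExD (k q : ℕ) (a : ℤ) {T r : ℕ} (m : Fin T → Fin r → ℤ) (e : Fin T → ℤ)
    (u : Fin r → ℤ) (H : ℕ) : Finset (Fin r → ℤ) :=
  (Fintype.piFinset (fun l => Ioc (u l) (u l + H))).filter (fun D => IsExc k q a (val m e D))

theorem mem_ExD (k q : ℕ) (a : ℤ) {T r : ℕ} (m : Fin T → Fin r → ℤ) (e : Fin T → ℤ)
    (u : Fin r → ℤ) (H : ℕ) (D : Fin r → ℤ) :
    D ∈ ExD k q a m e u H ↔ (∀ l, u l < D l ∧ D l ≤ u l + H) ∧ IsExc k q a (val m e D) := by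
  classical
  unfold ExD
  rw [mem_filter, Fintype.mem_piFinset]
  simp only [mem_Ioc]

/-- the contradiction from a configuration -/
theorem no_conf (k T : ℕ) (hk : 1 ≤ k) (hT : 8 * k ^ 2 < T) : ∃ K : ℕ, 2 ≤ K ∧
    ∀ (q : ℕ) (a : ℤ), 1 ≤ q → ∀ (r : ℕ) (m : Fin T → Fin r → ℤ) (e : Fin T → ℤ)
      (L : ℕ) (w : Finset (Fin T) → (Fin T → Fin K) → Fin r → ℤ)
      (c : Finset (Fin T) → (Fin T → Fin K) → ℤ), 1 ≤ L → q ∣ L → primorial (T * K) ∣ L →
      (∀ I j, I.card = k + 1 → (q : ℤ) ∣ c I j ∧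
        ∀ i ∈ I, ∑ l, m i l * w I j l + c I j = L * ((j i : ℕ) : ℤ)) →
      ∀ (D : Fin r → ℤ) (d : ℕ), 1 ≤ d → IsExc k q a (val m e D) →
      ¬ ∀ I j, I.card = k + 1 → IsExc k q a (val m e (fun l => D l + w I j l * d)) := by
  classical
  obtain ⟨K, hK, hblk⟩ := block_int k T hk hT
  refine ⟨K, hK, ?_⟩
  intro q a hq r m e L w c hL hqL hPL hw D d hd hD hconf
  have hK0 : 0 < K := by omega
  obtain ⟨x, hx⟩ : ∃ x : Fin T → Fin K → ℤ,
    ∀ i j, x i j = val m e D i + d * (L * ((j : ℕ) : ℤ)) := ⟨_, fun _ _ => rfl⟩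
  -- the values at the displaced parameters
  have hval : ∀ I j, I.card = k + 1 → ∀ i ∈ I,
      val m e (fun l => D l + w I j l * d) i = x i (j i) - d * c I j := by
    intro I j hI i hi
    rw [val_add, hx]
    have h1 := (hw I j hI).2 i hi
    have h2 : ∑ l, m i l * w I j l = L * ((j i : ℕ) : ℤ) - c I j := by linarith
    rw [h2]
    ring
  have hT2 : k + 1 ≤ T := by nlinarith
  have hinj : Function.Injective (fun y : Fin T × Fin K => x y.1 y.2) := by
    rintro ⟨i, j⟩ ⟨i', j'⟩ hh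
    simp only at hh
    by_cases hii : i = i'
    · subst hii
      rw [hx, hx] at hh
      have hd0 : (0 : ℤ) < d := by exact_mod_cast hd
      have hL0 : (0 : ℤ) < L := by exact_mod_cast hL
      have h1 : (d : ℤ) * (L * ((j : ℕ) : ℤ)) = d * (L * ((j' : ℕ) : ℤ)) := by linarith
      have h2 := mul_left_cancel₀ hd0.ne' h1
      have h3 := mul_left_cancel₀ hL0.ne' h2
      have h4 : (j : ℕ) = j' := by exact_mod_cast h3
      rw [Fin.ext h4]
    · exfalso
      obtain ⟨I, hI1, -, hI2⟩ := exists_subsuperset_card_eq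
        (subset_univ ({i, i'} : Finset (Fin T)))
        (n := k + 1) (by rw [card_pair hii]; omega) (by rw [card_univ, Fintype.card_fin]; exact hT2)
      set jj : Fin T → Fin K := fun z => if z = i then j else j' with hjj
      have hi : i ∈ I := hI1 (mem_insert_self _ _)
      have hi' : i' ∈ I := hI1 (mem_insert_of_mem (mem_singleton_self _))
      have h1 := (hconf I jj hI2).1
      have h2 := hval I jj hI2 i hi
      have h3 := hval I jj hI2 i' hi'
      have h4 : jj i = j := by rw [hjj]; simp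
      have h5 : jj i' = j' := by rw [hjj]; simp [Ne.symm hii]
      rw [h4] at h2
      rw [h5] at h3
      exact hii (h1 (by rw [h2, h3, hh]))
  have hqx : ∀ i j, (q : ℤ) ∣ x i j - val m e D i := by
    intro i j
    rw [hx]
    have h1 : (q : ℤ) ∣ L := by exact_mod_cast hqL
    have h2 : val m e D i + d * (L * ((j : ℕ) : ℤ)) - val m e D i = L * (d * ((j : ℕ) : ℤ)) := by ring
    rw [h2]
    exact h1.mul_right _
  obtain ⟨I, cc, hI, hcons⟩ := hblk q a hq x hinj
    (by
      intro i j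
      obtain ⟨t, ht⟩ := hqx i j
      have h1 : a + x i j = (a + val m e D i) + (q : ℤ) * t := by linarith
      rw [h1]
      exact (hD.2.2.1 i).add_mul_left_left t)
    (by
      intro p hp
      rcases le_or_gt p (T * K) with hle | hlt
      · obtain ⟨n, hn⟩ := hD.2.1 p hp
        refine ⟨n, fun i j hdvd => hn i ?_⟩
        have h1 : p ∣ L := by
          refine dvd_trans ?_ hPL
          unfold primorial
          exact dvd_prod_of_mem _ (by
            rw [mem_filter, mem_range]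
            exact ⟨by omega, hp⟩)
        have h2 : (p : ℤ) ∣ L := by exact_mod_cast h1
        have h3 : n + val m e D i = (n + x i j) - L * (d * ((j : ℕ) : ℤ)) := by
          rw [hx]; ring
        rw [h3]
        exact dvd_sub hdvd (h2.mul_right _)
      · obtain ⟨n, hn⟩ := adm_large (fun y : Fin T × Fin K => x y.1 y.2) p hp (by
          rw [Fintype.card_prod, Fintype.card_fin, Fintype.card_fin]
          exact hlt)
        exact ⟨n, fun i j => hn (i, j)⟩)
  apply (hconf I cc hI).2.2.2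
  refine ⟨(I.image (fun g => x g (cc g))).image (fun y => y - d * c I cc), ?_, ?_,
    Cons_shift q a _ _ (((hw I cc hI).1).mul_left _) hcons⟩
  · intro f hf
    obtain ⟨y, hy, rfl⟩ := mem_image.1 hf
    obtain ⟨i, hi, rfl⟩ := mem_image.1 hy
    exact ⟨i, hval I cc hI i hi⟩
  · rw [card_image_of_injective _ (fun y y' h => by simpa using h),
      card_image_of_injOn (fun i _ i' _ h => by
        have h1 := @hinj (i, cc i) (i', cc i') h
        exact congrArg Prod.fst h1), hI]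

theorem lin_main (k T r : ℕ) (hk : 1 ≤ k) (hT : 8 * k ^ 2 < T) (m : Fin T → Fin r → ℤ)
    (e : Fin T → ℤ)
    (hm : ∀ I : Finset (Fin T), I.card = k + 1 →
      AffineIndependent ℚ (fun i : {x // x ∈ I} => (fun l => (m i l : ℚ))))
    (q : ℕ) (a : ℤ) (hq : 1 ≤ q) (ε : ℝ) (hε : 0 < ε) :
    ∃ C : ℕ, ∀ H : ℕ, C ≤ H → ∀ u : Fin r → ℤ,
      ((ExD k q a m e u H).card : ℝ) ≤ ε * (H : ℝ) ^ r := by
  classical
  obtain ⟨K, hK, hno⟩ := no_conf k T hk hT
  -- interpolation
  have hint : ∀ (I : Finset (Fin T)) (j : Fin T → Fin K), ∃ (N : ℕ) (w : Fin r → ℤ) (c : ℤ),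
      1 ≤ N ∧ (I.card = k + 1 → ∀ i ∈ I, ∑ l, m i l * w l + c = N * ((j i : ℕ) : ℤ)) := by
    intro I j
    by_cases hI : I.card = k + 1
    · obtain ⟨N, w, c, h1, h2⟩ := interpZ m I (hm I hI) (fun i => ((j i : ℕ) : ℤ))
      exact ⟨N, w, c, h1, fun _ => h2⟩
    · exact ⟨1, 0, 0, le_rfl, fun h => absurd h hI⟩
  choose N w₀ c₀ hN1 hN2 using hint
  set Pn : ℕ := ∏ x : Finset (Fin T) × (Fin T → Fin K), N x.1 x.2 with hPn
  have hPn1 : 1 ≤ Pn := by
    rw [hPn]
    have h0 : 0 < ∏ x : Finset (Fin T) × (Fin T → Fin K), N x.1 x.2 :=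
      Finset.prod_pos fun x _ => hN1 x.1 x.2
    exact h0
  set L : ℕ := q * primorial (T * K) * Pn with hL
  have hL1 : 1 ≤ L := by
    rw [hL]
    exact Nat.mul_pos (Nat.mul_pos hq (primorial_pos _)) hPn1
  have hdvd : ∀ I j, ∃ s : ℕ, L = N I j * (q * s) := by
    intro I j
    have h1 : N I j ∣ Pn := by
      rw [hPn]
      exact dvd_prod_of_mem (fun x : Finset (Fin T) × (Fin T → Fin K) => N x.1 x.2)
        (mem_univ (I, j))
    obtain ⟨s, hs⟩ := h1
    refine ⟨primorial (T * K) * s, ?_⟩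
    rw [hL, hs]
    ring
  choose s hs using hdvd
  set w : Finset (Fin T) → (Fin T → Fin K) → Fin r → ℤ :=
    fun I j l => (q * s I j : ℕ) * w₀ I j l with hw
  set c : Finset (Fin T) → (Fin T → Fin K) → ℤ := fun I j => (q * s I j : ℕ) * c₀ I j with hc
  have hwc : ∀ I j, I.card = k + 1 → (q : ℤ) ∣ c I j ∧
        ∀ i ∈ I, ∑ l, m i l * w I j l + c I j = L * ((j i : ℕ) : ℤ) := by
    intro I j hI
    constructor
    · rw [hc]
      push_cast
      rw [mul_assoc]
      exact dvd_mul_right _ _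
    · intro i hi
      have h1 := hN2 I j hI i hi
      have h2 : ∑ l, m i l * w I j l = (q * s I j : ℕ) * ∑ l, m i l * w₀ I j l := by
        rw [mul_sum]
        apply sum_congr rfl
        intro l _
        rw [hw]
        ring
      have h3 : (L : ℤ) = N I j * (q * s I j : ℕ) := by
        have := hs I j
        rw [this]
        push_cast
        ring
      rw [h2, h3, hc]
      simp only
      rw [← mul_add, h1]
      ring
  -- many configurations
  have hε' : 0 < min ε 1 := lt_min hε one_pos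
  obtain ⟨W, hW0, hW1⟩ : ∃ W : Option (Finset (Fin T) × (Fin T → Fin K)) → Unit → Fin r → ℤ,
      (∀ g l, W none g l = 0) ∧ ∀ x g l, W (some x) g l = w x.1 x.2 l :=
    ⟨fun o _ l => match o with
      | none => 0
      | some x => w x.1 x.2 l, fun _ _ => rfl, fun _ _ _ => rfl⟩
  obtain ⟨C, κ, hC, hκ, hκ1, hv⟩ := Pool.Agent.Y877.varn r W none hW0 (min ε 1) hε'
    (min_le_right _ _)
  obtain ⟨C', hC'⟩ := exists_nat_gt (1 / κ)
  refine ⟨C + C', fun H hH u => ?_⟩
  by_contra hcon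
  push Not at hcon
  obtain ⟨E, hE⟩ : ∃ E, E = ExD k q a m e u H := ⟨_, rfl⟩
  rw [← hE] at hcon
  have hEsub : E ⊆ Fintype.piFinset (fun l => Ioc (u l) (u l + H)) := by
    rw [hE]
    unfold ExD
    exact filter_subset _ _
  have hEcard : min ε 1 * (H : ℝ) ^ r ≤ E.card := by
    refine le_trans ?_ hcon.le
    apply mul_le_mul_of_nonneg_right (min_le_left _ _) (by positivity)
  have hmany := hv H (by omega) u E hEsub hEcard
  have hEle : (E.card : ℝ) ≤ (H : ℝ) ^ r := by
    have h1 := card_le_card hEsub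
    rw [Fintype.card_piFinset] at h1
    have h2 : ∀ l : Fin r, (Ioc (u l) (u l + H)).card = H := by
      intro l
      rw [Int.card_Ioc]
      omega
    simp only [h2, prod_const, card_univ, Fintype.card_fin] at h1
    exact_mod_cast h1
  have hH0 : (0 : ℝ) < H := by exact_mod_cast (by omega : 0 < H)
  obtain ⟨Q, hQm, hmany⟩ : ∃ Q : Finset ((Fin r → ℤ) × (Unit → ℕ)),
      (∀ p ∈ Q, p.1 ∈ E ∧ ∀ o, p.1 + Pool.Agent.Y877.dsp W o p.2 ∈ E) ∧
      κ * (H : ℝ) ^ (r + Fintype.card Unit) ≤ Q.card := by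
    refine ⟨_, ?_, hmany⟩
    intro p hp
    rw [mem_filter, mem_product] at hp
    exact ⟨hp.1.1, hp.2⟩
  -- a configuration with a positive parameter
  have hex : ∃ p ∈ Q, 1 ≤ p.2 () := by
    by_contra hno'
    push Not at hno'
    have h1 : Q.card ≤ E.card := by
      apply card_le_card_of_injOn (fun p => p.1)
      · intro p hp
        exact (hQm p hp).1
      · intro p hp p' hp' he
        have h2 := hno' p hp
        have h3 := hno' p' hp'
        apply Prod.ext he
        funext z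
        have h4 : p.2 z = 0 := by have : z = () := rfl; rw [this]; omega
        have h5 : p'.2 z = 0 := by have : z = () := rfl; rw [this]; omega
        rw [h4, h5]
    have h2 : κ * (H : ℝ) ^ (r + Fintype.card Unit) ≤ (H : ℝ) ^ r := by
      refine hmany.trans (le_trans ?_ hEle)
      exact_mod_cast h1
    rw [Fintype.card_unit, pow_succ] at h2
    have h3 : (0 : ℝ) < (H : ℝ) ^ r := by positivity
    have h4 : κ * H ≤ 1 := by
      have h5 : (κ * H) * (H : ℝ) ^ r ≤ 1 * (H : ℝ) ^ r := by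
        calc (κ * H) * (H : ℝ) ^ r = κ * ((H : ℝ) ^ r * H) := by ring
          _ ≤ (H : ℝ) ^ r := h2
          _ = _ := by ring
      exact le_of_mul_le_mul_right h5 h3
    have h6 : (C' : ℝ) ≤ H := by exact_mod_cast (by omega : C' ≤ H)
    rw [div_lt_iff₀ hκ] at hC'
    have h7 : (C' : ℝ) * κ ≤ κ * H := by
      rw [mul_comm]
      exact mul_le_mul_of_nonneg_left h6 hκ.le
    linarith
  obtain ⟨p, hp, hp1⟩ := hex
  obtain ⟨hpE, hpall⟩ := hQm p hp
  have hDE := ((mem_ExD k q a m e u H p.1).1 (hE ▸ hpE)).2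
  apply hno q a hq r m e L w c hL1 ⟨primorial (T * K) * Pn, by rw [hL]; ring⟩
    ⟨q * Pn, by rw [hL]; ring⟩ hwc p.1 (p.2 ()) hp1 hDE
  intro I j _
  have h1 := hpall (some (I, j))
  rw [hE] at h1
  have h2 := ((mem_ExD k q a m e u H _).1 h1).2
  have h3 : (p.1 + Pool.Agent.Y877.dsp W (some (I, j)) p.2) =
      (fun l => p.1 l + w I j l * (p.2 () : ℕ)) := by
    funext l
    unfold Pool.Agent.Y877.dsp
    simp only [Pi.add_apply, hW1]
    simp
  rw [h3] at h2
  exact h2

end Pool.Agent.P8H6.Lin
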